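import Pool.Agent.Lib.MP_e91a1a_an.DA.All

/-!
# MP_e91a1a_an : the answer to Q1 is negative, for every d ≥ 2

`DruryArveson.IsDruryArveson d H`: `H` is a Hilbert space of functions on the open unit ball of `ℂ^d`
(Mathlib's class `RKHS`) with reproducing kernel `1/(1 - ⟨z,w⟩)`.
-/

open scoped Topology
open Filter DruryArveson

/-- For every `d ≥ 2` the Drury-Arveson space `H²_d` exists as an `RKHS`, and in every realisation of it there are a
cyclic multiplier `m` of norm at most one and a constant `c < 1` such that `|φ(0) m(0)| ≤ c` for every cyclic multiplier `φ` with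
`‖φ m‖ ≤ 1`; in particular no sequence of cyclic multipliers `φ_n` has `‖φ_n m‖ ≤ 1` for all `n` and `φ_n m → 1` pointwise. -/
theorem Pool.Agent.Results.MP_e91a1a_an.NoCyclicInverses.result (d : ℕ) (hd : 2 ≤ d) :
    (∃ (H : Type) (_ : NormedAddCommGroup H) (_ : InnerProductSpace ℂ H) (_ : CompleteSpace H)
      (_ : RKHS ℂ H (Ball d) ℂ), IsDruryArveson d H) ∧
    ∀ (H : Type) [NormedAddCommGroup H] [InnerProductSpace ℂ H] [CompleteSpace H]
      [RKHS ℂ H (Ball d) ℂ], IsDruryArveson d H →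
      ∃ m : Ball d → ℂ, IsCyclicMultiplier H m ∧ MultNormLE H m 1 ∧
        (∃ c : ℝ, c < 1 ∧ ∀ φ : Ball d → ℂ, IsCyclicMultiplier H φ →
          MultNormLE H (fun z => φ z * m z) 1 → ‖φ ⟨0, by simp⟩ * m ⟨0, by simp⟩‖ ≤ c) ∧
        ¬ ∃ φ : ℕ → Ball d → ℂ, (∀ n, IsCyclicMultiplier H (φ n)) ∧
          (∀ n, MultNormLE H (fun z => φ n z * m z) 1) ∧
          ∀ z, Tendsto (fun n => φ n z * m z) atTop (𝓝 1) := by
  refine ⟨DA91.all_exists d, ?_⟩
  intro H _ _ _ _ hH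
  obtain ⟨m, hm, hm1, c, hc, hbad⟩ := DA91.all_final d hd H hH
  refine ⟨m, hm, hm1, ⟨c, hc, hbad⟩, ?_⟩
  rintro ⟨φ, hφ, hφm, hlim⟩
  have h := (hlim ⟨0, by simp⟩).norm
  have h2 : ‖(1 : ℂ)‖ ≤ c := le_of_tendsto h (Eventually.of_forall fun n => hbad (φ n) (hφ n) (hφm n))
  rw [norm_one] at h2
  linarith
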